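import Pool.Agent.H47.Chord

open Set Filter Topology Metric Polynomial OnePoint Pool.Agent.H47.Chord

namespace Pool.Agent.Results.MP_1b82cc_an.Merg

/-- the chordal metric on the Riemann sphere -/
noncomputable def chi : OnePoint ℂ → OnePoint ℂ → ℝ
  | (a : ℂ), (b : ℂ) => ‖a - b‖ / (√(1 + ‖a‖ ^ 2) * √(1 + ‖b‖ ^ 2))
  | (a : ℂ), ∞ => 1 / √(1 + ‖a‖ ^ 2)
  | ∞, (b : ℂ) => 1 / √(1 + ‖b‖ ^ 2)
  | ∞, ∞ => 0

theorem chi_coe (a b : ℂ) : chi a b = ‖a - b‖ / (√(1 + ‖a‖ ^ 2) * √(1 + ‖b‖ ^ 2)) := rfl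

noncomputable def st : OnePoint ℂ → WithLp 2 (ℂ × ℝ)
  | (a : ℂ) => WithLp.toLp 2 ((1 + ‖a‖ ^ 2)⁻¹ • a, (1 + ‖a‖ ^ 2)⁻¹)
  | ∞ => 0

theorem st_inf (a : ℂ) : ‖st a‖ = 1 / √(1 + ‖a‖ ^ 2) := by
  rw [← sq_eq_sq₀ (by positivity) (by positivity), WithLp.prod_norm_sq_eq_of_L2, div_pow,
    Real.sq_sqrt (by positivity)]
  simp only [st, WithLp.toLp_fst, WithLp.toLp_snd, norm_smul, Real.norm_eq_abs, mul_pow, sq_abs]
  field_simp; ring

theorem chi_eq (a b : OnePoint ℂ) : chi a b = ‖st a - st b‖ := by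
  induction a using OnePoint.rec <;> induction b using OnePoint.rec
  · simp [chi]
  · rw [show st ∞ = 0 from rfl, zero_sub, norm_neg, st_inf]; rfl
  · rw [show st ∞ = 0 from rfl, sub_zero, st_inf]; rfl
  · rename_i a b
    rw [chi_coe, ← sq_eq_sq₀ (by positivity) (by positivity), WithLp.prod_norm_sq_eq_of_L2, div_pow,
      mul_pow, Real.sq_sqrt (by positivity), Real.sq_sqrt (by positivity)]
    simp only [st, WithLp.sub_fst, WithLp.sub_snd, WithLp.toLp_fst, WithLp.toLp_snd,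
      Real.norm_eq_abs, sq_abs, Complex.sq_norm, Complex.normSq_apply, Complex.sub_re,
      Complex.sub_im, Complex.smul_re, Complex.smul_im, smul_eq_mul]
    have : 0 < 1 + (a.re * a.re + a.im * a.im) := by nlinarith [sq_nonneg a.re, sq_nonneg a.im]
    have : 0 < 1 + (b.re * b.re + b.im * b.im) := by nlinarith [sq_nonneg b.re, sq_nonneg b.im]
    field_simp; ring

theorem st_le (a b : ℂ) : ‖st a - st b‖ ≤ ‖a - b‖ := by
  rw [← chi_eq, chi_coe]
  refine div_le_self (norm_nonneg _) (one_le_mul_of_one_le_of_one_le ?_ ?_) <;>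
    exact Real.one_le_sqrt.2 (by linarith [sq_nonneg ‖a‖, sq_nonneg ‖b‖])

theorem st_cont : Continuous st := by
  rw [OnePoint.continuous_iff, coclosedCompact_eq_cocompact]
  refine ⟨tendsto_zero_iff_norm_tendsto_zero.2 ?_, (LipschitzWith.of_dist_le_mul (K := 1)
    fun a b => by simpa [dist_eq_norm] using st_le a b).continuous⟩
  simp only [st_inf, one_div]
  exact (Real.tendsto_sqrt_atTop.comp (tendsto_atTop_add_const_left _ 1
    ((tendsto_pow_atTop two_ne_zero).comp (tendsto_norm_cocompact_atTop (E := ℂ))))).inv_tendsto_atTop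

theorem const (b : OnePoint ℂ) {ε : ℝ} (e0 : 0 < ε) : ∃ a : ℂ, ‖st a - st b‖ ≤ ε := by
  obtain ⟨a, h⟩ := (OnePoint.denseRange_coe (X := ℂ)).exists_mem_open
    ((isOpen_ball (x := st b) (ε := ε)).preimage st_cont) ⟨b, by simpa⟩
  exact ⟨a, (mem_ball_iff_norm.1 h).le⟩

theorem disc {L : Set ℂ} (hL : IsCompact L) {f : ℂ → OnePoint ℂ} (hf : ContinuousOn f L) {c : ℂ}
    {ρ : ℝ} (h0 : 0 ≤ ρ) (h1 : closedBall c ρ ⊆ L) (h2 : (∀ z ∈ ball c ρ, f z = ∞) ∨
      ∃ g : ℂ → ℂ, DifferentiableOn ℂ g (ball c ρ) ∧ ∀ z ∈ ball c ρ, f z = g z) {ε : ℝ}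
    (e0 : 0 < ε) : ∃ s, ρ < s ∧ ∃ p : ℂ[X], ∀ z ∈ L, z ∈ closedBall c s →
      ‖st (p.eval z : ℂ) - st (f z)‖ ≤ ε := by
  obtain ⟨η, η0, hη⟩ := Metric.uniformContinuousOn_iff.1 (hL.uniformContinuousOn_of_continuous
    (st_cont.comp_continuousOn hf)) _ (half_pos e0)
  simp only [dist_eq_norm, Function.comp_apply] at hη
  rcases h0.eq_or_lt with rfl | h0
  · obtain ⟨a, ha⟩ := const (f c) (half_pos e0)
    refine ⟨η / 2, by positivity, C a, fun z hz b => ?_⟩
    have := hη c (h1 (by simp)) z hz (by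
      rw [norm_sub_rev]; linarith [mem_closedBall_iff_norm.1 b])
    rw [eval_C]; linarith [norm_sub_le_norm_sub_add_norm_sub (st a) (st (f c)) (st (f z))]
  obtain ⟨r, r1, r2⟩ := exists_between (show max (1 / 2) (1 - η / (2 * ρ)) < 1 from
    max_lt (by norm_num) (sub_lt_self _ (by positivity)))
  rw [max_lt_iff] at r1
  have r0 : 0 < r := by linarith [r1.1]
  obtain ⟨s, s1, s2⟩ := exists_between (show ρ < ρ / r by rw [lt_div_iff₀ r0]; nlinarith)
  rw [lt_div_iff₀ r0] at s2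
  let w : ℂ → ℂ := fun z => c + r * (z - c)
  have w1 : ∀ z, ‖w z - c‖ = r * ‖z - c‖ := fun z => by simp [w, abs_of_pos r0]
  obtain ⟨p, hp⟩ : ∃ p : ℂ[X], ∀ z ∈ closedBall c s, ‖st (p.eval z : ℂ) - st (f (w z))‖ ≤ ε / 2 := by
    have m : ∀ z ∈ ball c (ρ / r), w z ∈ ball c ρ := fun z hz => by
      rw [mem_ball_iff_norm, w1, mul_comm, ← lt_div_iff₀ r0]; exact mem_ball_iff_norm.1 hz
    have s3 : s < ρ / r := by rwa [lt_div_iff₀ r0]
    rcases h2 with h | ⟨g, a, b⟩
    · obtain ⟨a, ha⟩ := const ∞ (half_pos e0)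
      exact ⟨C a, fun z hz => by rwa [h _ (m z (closedBall_subset_ball s3 hz)), eval_C]⟩
    · obtain ⟨p, hp⟩ := taylor (a.comp (f := w) (by fun_prop) m) (h0.trans s1) s3 (half_pos e0)
      exact ⟨p, fun z hz => by
        rw [b _ (m z (closedBall_subset_ball s3 hz))]; exact (st_le _ _).trans (hp z hz)⟩
  refine ⟨s, s1, p, fun z hz b => ?_⟩
  have b' := mem_closedBall_iff_norm.1 b
  have := hη (w z) (h1 (by rw [mem_closedBall_iff_norm, w1]; nlinarith)) z hz (by
    rw [show w z - z = ((r - 1 : ℝ) : ℂ) * (z - c) by simp only [w]; push_cast; ring, norm_mul,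
      Complex.norm_real, Real.norm_of_nonpos (by linarith)]
    have a : (1 - r) * (2 * ρ) < η := by rw [← lt_div_iff₀ (by positivity)]; linarith [r1.2]
    have : s ≤ 2 * ρ := by nlinarith [r1.1]
    nlinarith)
  linarith [hp z b, norm_sub_le_norm_sub_add_norm_sub (st (p.eval z : ℂ)) (st (f (w z))) (st (f z))]

theorem result (P : ℂ) (c : ℕ → ℂ) (r : ℕ → ℝ) (hr : ∀ n, 0 < r n)
    (hd : Pairwise fun m n => Disjoint (closedBall (c m) (r m)) (closedBall (c n) (r n)))
    (hP : ∀ ε > 0, ∀ᶠ n in atTop, closedBall (c n) (r n) ⊆ ball P ε)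
    (L : Set ℂ) (hL : L = insert P (⋃ n, closedBall (c n) (r n)))
    (f : ℂ → OnePoint ℂ) (hf : ContinuousOn f L)
    (hh : ∀ a ∈ interior L, (∀ z ∈ connectedComponentIn (interior L) a, f z = ∞) ∨
      ∃ g : ℂ → ℂ, DifferentiableOn ℂ g (connectedComponentIn (interior L) a) ∧
        ∀ z ∈ connectedComponentIn (interior L) a, f z = g z) :
    ∃ p : ℕ → ℂ[X], ∀ ε > 0, ∀ᶠ k in atTop, ∀ z ∈ L, chi ((p k).eval z : ℂ) (f z) ≤ ε := by
  classical
  set D : ℕ → Set ℂ := fun n => closedBall (c n) (r n)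
  have DL : ∀ n, D n ⊆ L := fun n z hz => hL ▸ .inr (mem_iUnion.2 ⟨n, hz⟩)
  have cpt : ∀ J : Set ℕ, IsCompact (insert P (⋃ n ∈ J, D n)) := fun J => by
    have key : ∀ ε > 0, ∃ N, insert P (⋃ n ∈ J, D n) ⊆ closedBall P ε ∪ ⋃ n ∈ J ∩ Iio N, D n :=
      fun ε e0 => by
        obtain ⟨N, hN⟩ := eventually_atTop.1 (hP ε e0)
        refine ⟨N, insert_subset (.inl (mem_closedBall_self e0.le)) (iUnion₂_subset fun n hn z hz => ?_)⟩
        rcases lt_or_ge n N with h | h
        · exact .inr (mem_biUnion (show n ∈ J ∩ Iio N from ⟨hn, h⟩) hz)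
        · exact .inl (ball_subset_closedBall (hN n h hz))
    have k2 : ∀ ε N, IsCompact (closedBall P ε ∪ ⋃ n ∈ J ∩ Iio N, D n) := fun ε N =>
      (isCompact_closedBall _ _).union (((finite_Iio N).inter_of_right J).isCompact_biUnion
        fun n _ => isCompact_closedBall _ _)
    obtain ⟨N, hN⟩ := key 1 one_pos
    refine (k2 1 N).of_isClosed_subset (isClosed_of_closure_subset fun z hz => ?_) hN
    refine (eq_or_ne z P).imp_right fun e => ?_
    obtain ⟨N, hN⟩ := key _ (half_pos (dist_pos.2 e))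
    rcases closure_minimal hN (k2 _ N).isClosed hz with h | h
    · linarith [mem_closedBall.1 h, dist_pos.2 e]
    · exact biUnion_subset_biUnion_left inter_subset_left h
  have cL : IsCompact L := by simpa [hL] using cpt univ
  have sep : ∀ n, P ∉ D n → ∃ ρ', r n < ρ' ∧ ball (c n) ρ' ∩ L ⊆ D n := fun n hn => by
    obtain ⟨δ, d0, hδ⟩ := (isCompact_closedBall (c n) (r n)).exists_cthickening_subset_open
      (cpt {n}ᶜ).isClosed.isOpen_compl (by
        rintro z hz (rfl | h)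
        · exact hn hz
        · obtain ⟨m, a, b⟩ := mem_iUnion₂.1 h
          exact disjoint_left.1 (hd a) b hz)
    rw [cthickening_closedBall d0.le (hr n).le] at hδ
    refine ⟨δ + r n, by linarith, fun z ⟨a, b⟩ => ?_⟩
    have := hδ (ball_subset_closedBall a)
    rcases hL ▸ b with rfl | h
    · exact (this (mem_insert _ _)).elim
    · obtain ⟨m, hm⟩ := mem_iUnion.1 h
      by_contra e
      exact this (.inr (mem_biUnion (show m ∈ ({n}ᶜ : Set ℕ) from fun z => e (z ▸ hm)) hm))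
  have hol : ∀ n, (∀ z ∈ ball (c n) (r n), f z = ∞) ∨ ∃ g : ℂ → ℂ,
      DifferentiableOn ℂ g (ball (c n) (r n)) ∧ ∀ z ∈ ball (c n) (r n), f z = g z := fun n => by
    have a : ball (c n) (r n) ⊆ interior L :=
      interior_maximal (ball_subset_closedBall.trans (DL n)) isOpen_ball
    have b := (convex_ball (c n) (r n)).isPreconnected.subset_connectedComponentIn
      (mem_ball_self (hr n)) a
    exact (hh _ (a (mem_ball_self (hr n)))).imp (fun h z hz => h z (b hz))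
      fun ⟨g, u, v⟩ => ⟨g, u.mono b, fun z hz => v z (b hz)⟩
  obtain ⟨c0, ρ, q0, q1, q2, q3, q4⟩ : ∃ c0 ρ, 0 ≤ ρ ∧ P ∈ closedBall c0 ρ ∧
      closedBall c0 ρ ⊆ L ∧ (∀ n, P ∈ D n → D n ⊆ closedBall c0 ρ) ∧
      ((∀ z ∈ ball c0 ρ, f z = ∞) ∨
        ∃ g : ℂ → ℂ, DifferentiableOn ℂ g (ball c0 ρ) ∧ ∀ z ∈ ball c0 ρ, f z = g z) := by
    by_cases e : ∃ n, P ∈ D n
    · obtain ⟨n, hn⟩ := e
      refine ⟨c n, r n, (hr n).le, hn, DL n, fun m hm => ?_, hol n⟩
      rw [show m = n from by_contra fun z => disjoint_left.1 (hd z) hm hn]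
    · exact ⟨P, 0, le_rfl, by simp, by simp [hL], fun n hn => (e ⟨n, hn⟩).elim, .inl (by simp)⟩
  have conn : ∀ σ : Set ℂ, IsCompact σ → frontier σ ⊆ L → σ ⊆ L := fun σ a b z hz => by
    by_contra e
    have z1 : ρ < ‖z - c0‖ := not_le.1 fun h => e (q2 (mem_closedBall_iff_norm.2 h))
    refine ray cL.isClosed a b e (norm_pos_iff.1 (q0.trans_lt z1)) (fun t t0 h => ?_) hz
    have n : z + t * (z - c0) ∉ closedBall c0 ρ := by
      rw [mem_closedBall_iff_norm, show z + t * (z - c0) - c0 = ((1 + t : ℝ) : ℂ) * (z - c0) by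
        push_cast; ring, norm_mul, Complex.norm_real, Real.norm_of_nonneg (by linarith), not_le]
      nlinarith
    rcases hL ▸ h with h | h
    · exact (n (h ▸ q1)).elim
    · obtain ⟨m, hm⟩ := mem_iUnion.1 h
      obtain ⟨ρ', u, v⟩ := sep m fun y => n (q3 m y hm)
      exact ⟨c m, r m, ρ', u, hm, DL m, v⟩
  have glue : ∀ (g0 : ℂ[X]) (g : ℕ → ℂ[X]) (J : Finset ℕ), (∀ j ∈ J, P ∉ D j) → ∀ δ > 0,
      ∃ p : ℂ[X], ∀ z ∈ L, (∀ j ∈ J, z ∈ D j → ‖p.eval z - (g j).eval z‖ ≤ δ) ∧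
        ((∀ j ∈ J, z ∉ D j) → ‖p.eval z - g0.eval z‖ ≤ δ) := fun g0 g J => by
    induction J using Finset.induction_on with
    | empty => exact fun _ δ d0 => ⟨g0, fun z _ => by simp [d0.le]⟩
    | insert i J hi ih =>
      intro h δ d0
      obtain ⟨p, hp⟩ := ih (fun j hj => h j (by simp [hj])) _ (half_pos d0)
      obtain ⟨M, hM⟩ := cL.exists_bound_of_continuousOn (f := fun z => (g i - p).eval z)
        (Polynomial.continuous _).continuousOn
      have M0 : 0 ≤ M := (norm_nonneg _).trans (hM P (by simp [hL]))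
      obtain ⟨ρ', u, v⟩ := sep i (h i (by simp))
      obtain ⟨e, he⟩ := idem cL ⟨P, by simp [hL]⟩ conn (hr i) u v
        (show 0 < δ / 2 / (M + 1) by positivity)
      have b : ∀ z ∈ L, ∀ x : ℂ, ‖x‖ ≤ δ / 2 / (M + 1) → ‖x * (g i - p).eval z‖ ≤ δ / 2 :=
        fun z hz x hx => by
          rw [le_div_iff₀ (by positivity)] at hx
          rw [norm_mul]; nlinarith [hM z hz, norm_nonneg x]
      have o : ∀ z ∈ L, z ∉ D i → ∀ y : ℂ, ‖p.eval z - y‖ ≤ δ / 2 →
          ‖(p + e * (g i - p)).eval z - y‖ ≤ δ := fun z hz n y hy => by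
        rw [eval_add, eval_mul, add_sub_right_comm]
        linarith [norm_add_le (p.eval z - y) (e.eval z * (g i - p).eval z),
          b z hz _ ((he z hz).2 n)]
      refine ⟨p + e * (g i - p), fun z hz => ⟨fun j hj m => ?_, fun m => ?_⟩⟩
      · rcases Finset.mem_insert.1 hj with rfl | hj
        · have := b z hz _ ((he z hz).1 m)
          rw [show (p + e * (g j - p)).eval z - (g j).eval z = (e.eval z - 1) * (g j - p).eval z by
            simp; ring]
          linarith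
        · exact o z hz (disjoint_left.1 (hd fun y : j = i => hi (y ▸ hj)) m) _ ((hp z hz).1 j hj m)
      · exact o z hz (m i (by simp)) _ ((hp z hz).2 fun j hj => m j (by simp [hj]))
  have main : ∀ ε > 0, ∃ p : ℂ[X], ∀ z ∈ L, chi (p.eval z : ℂ) (f z) ≤ ε := fun ε e0 => by
    obtain ⟨s, s1, g0, h0⟩ := disc cL hf q0 q2 q4 (half_pos e0)
    choose t t1 g hg using fun n => disc cL hf (hr n).le (DL n) (hol n) (half_pos e0)
    obtain ⟨N, hN⟩ := eventually_atTop.1 (hP _ (sub_pos.2 s1))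
    obtain ⟨p, hp⟩ := glue g0 g ((Finset.range N).filter fun n => P ∉ D n)
      (fun j hj => (Finset.mem_filter.1 hj).2) _ (half_pos e0)
    refine ⟨p, fun z hz => ?_⟩
    rw [chi_eq]
    by_cases e : ∃ j ∈ (Finset.range N).filter fun n => P ∉ D n, z ∈ D j
    · obtain ⟨j, a, b⟩ := e
      linarith [(st_le _ _).trans ((hp z hz).1 j a b), hg j z hz (closedBall_subset_closedBall
        (t1 j).le b), norm_sub_le_norm_sub_add_norm_sub (st (p.eval z : ℂ))
          (st ((g j).eval z : ℂ)) (st (f z))]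
    · push Not at e
      have : z ∈ closedBall c0 s := by
        rcases hL ▸ hz with rfl | h
        · exact closedBall_subset_closedBall s1.le q1
        obtain ⟨m, hm⟩ := mem_iUnion.1 h
        by_cases a : P ∈ D m
        · exact closedBall_subset_closedBall s1.le (q3 m a hm)
        have := hN m (not_lt.1 fun y => e m (by simp [y, a]) hm) hm
        rw [mem_closedBall]
        linarith [dist_triangle z P c0, mem_ball.1 this, mem_closedBall.1 q1]
      linarith [(st_le _ _).trans ((hp z hz).2 e), h0 z hz this, norm_sub_le_norm_sub_add_norm_sub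
        (st (p.eval z : ℂ)) (st (g0.eval z : ℂ)) (st (f z))]
  choose p hp using fun k : ℕ => main (1 / (k + 1)) (by positivity)
  refine ⟨p, fun ε e0 => ?_⟩
  filter_upwards [tendsto_one_div_add_atTop_nhds_zero_nat.eventually (ge_mem_nhds e0)] with k hk
    z hz using (hp k z hz).trans hk

end Pool.Agent.Results.MP_1b82cc_an.Merg
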